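import Pool.Agent.H534R3.Local
import Pool.Agent.H534R3.PiThree

/-!
# Differences of generalized normal-number sets, for polynomials of any degree

For all multiplicatively independent integers `a, b > 1` and every `k ≥ 0` the set of the real
polynomials `g` of degree at most `k` such that `g(n) a ^ n` is uniformly distributed modulo one and
`g(n) b ^ n` is not, is complete for the class of the differences of two sets of the third
multiplicative Borel class.

The case `k = 0`, also for bases that are not coprime, rests on the simultaneous reduction of the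
starting file `Pool.Agent.H534R3.Local`: a continuous map of the Baire space to the reals reduces
independently the convergence to infinity along the odd and along the even indices to the
normality in the bases `a` and `b`. Here it is composed with the closed embedding of the reals as
constant polynomials; the upper bound is proved directly in the space of polynomials.
-/

set_option autoImplicit false

open Filter Topology

namespace Pool.Agent.Results.MP_df8ac3_lc.AllDegreesH2

/-- The sequence `x` is uniformly distributed modulo one: for all `0 ≤ u < v ≤ 1` the proportion of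
the `n < N` with fractional part of `x n` in `[u, v)` tends to `v - u`. -/
def IsUD (x : ℕ → ℝ) : Prop := ∀ u v : ℝ, 0 ≤ u → u < v → v ≤ 1 →
  Tendsto
    (fun N : ℕ =>
      (((Finset.range N).filter (fun n => u ≤ Int.fract (x n) ∧ Int.fract (x n) < v)).card : ℝ)
        / (N : ℝ))
    atTop (𝓝 (v - u))

/-- The space of the real polynomials of degree at most `k`, identified with their coefficient
vectors, with the Euclidean topology. -/
abbrev PolySpace (k : ℕ) : Type := EuclideanSpace ℝ (Fin (k + 1))

/-- The value `g(x) = ∑ i, g i * x ^ i` of the polynomial `g` at `x`. -/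
def value {k : ℕ} (g : PolySpace k) (x : ℝ) : ℝ := ∑ i : Fin (k + 1), g i * x ^ (i : ℕ)

/-- The set `N_{a,k}` of the polynomials `g` of degree at most `k` such that `g(n) a ^ n` is
uniformly distributed modulo one. -/
def Normal (a k : ℕ) : Set (PolySpace k) :=
  {g | IsUD fun n : ℕ => value g (n : ℝ) * (a : ℝ) ^ n}

/-- `A` is in the third multiplicative Borel class: it is a countable intersection of countable
unions of closed sets. -/
def IsPiThree {X : Type} [TopologicalSpace X] (A : Set X) : Prop :=
  ∃ F : ℕ → ℕ → Set X, (∀ i j, IsClosed (F i j)) ∧ A = ⋂ i, ⋃ j, F i j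

/-- `D` is in the class of the differences of two sets of the third multiplicative class. -/
def IsDTwo {X : Type} [TopologicalSpace X] (D : Set X) : Prop :=
  ∃ A B : Set X, IsPiThree A ∧ IsPiThree B ∧ D = A \ B

/-- `D` is complete for the class of the differences of two sets of the third multiplicative class:
it belongs to the class, and it is hard for it, that is, its complement does not belong to the
class. -/
def IsDTwoComplete {X : Type} [TopologicalSpace X] (D : Set X) : Prop :=
  IsDTwo D ∧ ¬ IsDTwo Dᶜ

/-- The two forms of the definition of uniform distribution (with and without the empty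
intervals) agree. -/
theorem isUD_iff (x : ℕ → ℝ) : IsUD x ↔ Pool.Agent.H534R3.UDist.UD x := by
  constructor
  · intro h s t hs hst ht
    rcases hst.lt_or_eq with h1 | h1
    · exact h s t hs h1 ht
    · subst h1
      have h2 : ∀ N : ℕ, ((Finset.range N).filter
          (fun n => s ≤ Int.fract (x n) ∧ Int.fract (x n) < s)) = ∅ := by
        intro N
        refine Finset.filter_eq_empty_iff.2 fun n _ hn => ?_
        exact absurd hn.2 (not_lt.2 hn.1)
      simp only [h2, Finset.card_empty, Nat.cast_zero, zero_div, sub_self]
      exact tendsto_const_nhds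
  · intro h u v hu huv hv
    exact h u v hu huv.le hv

theorem piThree_preimage {X Y : Type} [TopologicalSpace X] [TopologicalSpace Y] {f : X → Y}
    (hf : Continuous f) {A : Set Y} (hA : IsPiThree A) : IsPiThree (f ⁻¹' A) := by
  obtain ⟨F, hF, rfl⟩ := hA
  refine ⟨fun i j => f ⁻¹' F i j, fun i j => (hF i j).preimage hf, ?_⟩
  simp only [Set.preimage_iInter, Set.preimage_iUnion]

/-- The set `N_{a,k}` is in the third multiplicative class. -/
theorem piThree_normal (a k : ℕ) : IsPiThree (Normal a k) := by
  obtain ⟨F, hF, hFe⟩ := Pool.Agent.H534R3.UDist.ud_piThree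
    (fun (g : PolySpace k) (n : ℕ) => value g (n : ℝ) * (a : ℝ) ^ n)
    (fun n => by unfold value; fun_prop)
  refine ⟨F, hF, ?_⟩
  rw [← hFe]
  ext g
  exact isUD_iff _

/-- The constant polynomial. -/
noncomputable def const (k : ℕ) (c : ℝ) : PolySpace k := EuclideanSpace.single 0 c

theorem continuous_const' (k : ℕ) : Continuous (const k) := by
  exact (PiLp.continuous_toLp 2 _).comp (continuous_single (A := fun _ : Fin (k + 1) => ℝ) 0)

theorem value_const (k : ℕ) (c x : ℝ) : value (const k c) x = c := by
  unfold value const
  rw [Finset.sum_eq_single (0 : Fin (k + 1))]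
  · simp
  · intro i _ hi
    simp [hi]
  · intro h
    exact absurd (Finset.mem_univ _) h

theorem const_mem (a k : ℕ) (c : ℝ) :
    const k c ∈ Normal a k ↔ Pool.Agent.H534R3.UDist.UD fun n : ℕ => c * (a : ℝ) ^ n := by
  show IsUD (fun n : ℕ => value (const k c) (n : ℝ) * (a : ℝ) ^ n) ↔ _
  rw [isUD_iff]
  simp only [value_const]

/-- **Answer to the question.** For all multiplicatively independent integers `a, b > 1` and every
`k ≥ 0` the set `N_{a,k} \ N_{b,k}` is complete for the class of the differences of two sets of the
third multiplicative Borel class of the space of the polynomials of degree at most `k`. -/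
theorem result (a b : ℕ) (ha : 1 < a) (hb : 1 < b)
    (hab : ∀ m n : ℕ, 0 < m → 0 < n → a ^ m ≠ b ^ n) (k : ℕ) :
    IsDTwoComplete (Normal a k \ Normal b k) := by
  refine ⟨⟨_, _, piThree_normal a k, piThree_normal b k, rfl⟩, ?_⟩
  rintro ⟨A, B, hA, hB, hAB⟩
  obtain ⟨g, hg, hga, hgb⟩ := Pool.Agent.H534R3.Rota.reduce_pair a b ha hb hab
  have hf : Continuous fun w => const k (g w) := (continuous_const' k).comp hg
  obtain ⟨F, hF, hFe⟩ := piThree_preimage hf hA
  obtain ⟨F', hF', hFe'⟩ := piThree_preimage hf hB
  refine Pool.Agent.H534R3.Rota.no_dual
    (fun w t => ∀ e, ∃ J, ∀ j, J ≤ j → Pool.Agent.H534R3.Rota.ty j = t → e ≤ w j)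
    (fun w t => Iff.rfl) F F' hF hF' ?_
  rw [← hFe, ← hFe', ← Set.preimage_sdiff, ← hAB, Set.preimage_compl]
  congr 1
  ext w
  show _ ↔ const k (g w) ∈ Normal a k ∧ const k (g w) ∉ Normal b k
  rw [const_mem, const_mem, hga, hgb]
  rfl

end Pool.Agent.Results.MP_df8ac3_lc.AllDegreesH2
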